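import Pool.Agent.helper65.SV.SpecE

set_option autoImplicit false

namespace Pool.Agent.SV

open Module

theorem PEV_upd {K : Type} [Fintype K] [DecidableEq K] {n : K → ℕ} (χ γ : Cell n) (i : K)
    (b : ZMod (n i + 1)) : chr (Function.update χ i b) γ =
      om (n i + 1) ^ (b.val * (γ i).val) * ∏ j ∈ Finset.univ.erase i, chy χ j (γ j) := by
  unfold chr
  rw [← Finset.mul_prod_erase Finset.univ _ (Finset.mem_univ i)]
  congr 1
  · simp [chy]
  · refine Finset.prod_congr rfl fun j hj => ?_
    have hj' : j ≠ i := Finset.ne_of_mem_erase hj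
    simp [chy, Function.update_of_ne hj']

theorem PEV_dist {K : Type} [Fintype K] [DecidableEq K] {n : K → ℕ} (χ : Cell n) :
    Finset.univ.filter (fun χ' => hammingDist χ χ' = 1) =
      Finset.univ.biUnion (fun i => (Finset.univ.erase (χ i)).image (Function.update χ i)) := by
  ext χ'
  simp only [Finset.mem_filter, Finset.mem_univ, true_and, Finset.mem_biUnion, Finset.mem_image,
    Finset.mem_erase, and_true]
  unfold hammingDist
  rw [Finset.card_eq_one]
  constructor
  · rintro ⟨i, hi⟩
    refine ⟨i, χ' i, ?_, ?_⟩
    · have : i ∈ Finset.univ.filter (fun i => χ i ≠ χ' i) := by rw [hi]; simp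
      simp only [Finset.mem_filter, Finset.mem_univ, true_and] at this
      exact fun h => this h.symm
    · funext j
      by_cases hj : j = i
      · subst hj; simp
      · rw [Function.update_of_ne hj]
        by_contra hne
        have : j ∈ Finset.univ.filter (fun i => χ i ≠ χ' i) := by
          simp only [Finset.mem_filter, Finset.mem_univ, true_and]; exact hne
        rw [hi] at this
        exact hj (Finset.mem_singleton.mp this)
  · rintro ⟨i, b, hb, rfl⟩
    refine ⟨i, ?_⟩
    ext j
    simp only [Finset.mem_filter, Finset.mem_univ, true_and, Finset.mem_singleton]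
    constructor
    · intro h
      by_contra hj
      rw [Function.update_of_ne hj] at h
      exact h rfl
    · rintro rfl
      rw [Function.update_self]
      exact fun h => hb h.symm

theorem PEV_disj {K : Type} [Fintype K] [DecidableEq K] {n : K → ℕ} (χ : Cell n) :
    (↑(Finset.univ : Finset K) : Set K).PairwiseDisjoint
      (fun i => (Finset.univ.erase (χ i)).image (Function.update χ i)) := by
  intro i _ j _ hij
  rw [Function.onFun, Finset.disjoint_left]
  rintro x hx hx'
  simp only [Finset.mem_image, Finset.mem_erase, Finset.mem_univ, and_true] at hx hx'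
  obtain ⟨b, hb, rfl⟩ := hx
  obtain ⟨b', hb', h⟩ := hx'
  have := congrFun h j
  rw [Function.update_self, Function.update_of_ne (fun h => hij h.symm)] at this
  exact hb' this

theorem PEV (hPCH : PCH_stmt) : PEV_stmt := by
  intro K _ _ n χ γ
  obtain ⟨_, _, _, _, _, _, hsum⟩ := hPCH K n
  rw [PEV_dist, Finset.sum_biUnion (PEV_disj χ)]
  have key : ∀ i : K, ∑ χ' ∈ (Finset.univ.erase (χ i)).image (Function.update χ i), chr χ' γ =
      (if γ i = 0 then (n i : ℂ) else -1) * chr χ γ := by
    intro i
    rw [Finset.sum_image (fun a _ b _ h => by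
      have := congrFun h i
      simpa using this)]
    have h1 : ∑ b ∈ Finset.univ.erase (χ i), chr (Function.update χ i b) γ =
        ∑ b, chr (Function.update χ i b) γ - chr χ γ := by
      rw [← Finset.add_sum_erase Finset.univ _ (Finset.mem_univ (χ i)), Function.update_eq_self]
      ring
    rw [h1]
    have h2 : ∑ b, chr (Function.update χ i b) γ =
        (if γ i = 0 then ((n i + 1 : ℕ) : ℂ) else 0) * ∏ j ∈ Finset.univ.erase i, chy χ j (γ j) := by
      rw [← hsum i (γ i), Finset.sum_mul]
      refine Finset.sum_congr rfl fun b _ => ?_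
      rw [PEV_upd, mul_comm b.val]
    rw [h2]
    split_ifs with h0
    · have h3 : chr χ γ = ∏ j ∈ Finset.univ.erase i, chy χ j (γ j) := by
        unfold chr
        rw [← Finset.mul_prod_erase Finset.univ _ (Finset.mem_univ i)]
        have : chy χ i (γ i) = 1 := by simp [chy, h0]
        rw [this, one_mul]
      rw [← h3]; push_cast; ring
    · ring
  rw [Finset.sum_congr rfl fun i _ => key i, ← Finset.sum_mul]
  congr 1
  unfold lamE hammingNorm
  rw [Finset.sum_ite]
  push_cast
  rw [Finset.sum_const, nsmul_eq_mul]
  ring

end Pool.Agent.SV
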