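import Pool.Agent.helper80.SV.Spec

set_option autoImplicit false

namespace Pool.Agent.SV

open MvPolynomial Module

theorem PLY_eval {ι : Type} (p : ι → ℂ → ℂ) (hp : ∀ i, PolyFun (p i)) (f : MvPolynomial ι ℂ) :
    PolyFun (fun t => eval (fun i => p i t) f) := by
  induction f using MvPolynomial.induction_on with
  | C a => simpa using PolyFun.const a
  | add f g hf hg => simpa using hf.add hg
  | mul_X f i hf => simpa using hf.mul (hp i)

theorem PLY_line {ι : Type} (x y : ι → ℂ) (i : ι) :
    PolyFun (fun t : ℂ => (x + t • (y - x)) i) := by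
  have h := (PolyFun.const (x i)).add (PolyFun.id.mul (PolyFun.const (y i - x i)))
  simpa using h

theorem PLY_grad {ι : Type} [Fintype ι] [DecidableEq ι] (A : Finset ι) (x y : ι → ℂ)
    (f : MvPolynomial ι ℂ) (j : ι) :
    PolyFun (fun t : ℂ => gradL A (x + t • (y - x)) f j) := by
  simp only [gradL_apply]
  by_cases h : j ∈ A
  · simp only [h, if_true]
    exact PLY_eval (fun i t => (x + t • (y - x)) i) (PLY_line x y) (pderiv j f)
  · simp only [h, if_false]
    exact PolyFun.const 0

theorem PLY_gradcut {ι : Type} [Fintype ι] [DecidableEq ι] (A : Finset ι) (x y : ι → ℂ)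
    (f : MvPolynomial ι ℂ) (j : ι) :
    PolyFun (fun t : ℂ => gradL A (cut A (x + t • (y - x))) f j) := by
  simp only [gradL_apply]
  by_cases h : j ∈ A
  · simp only [h, if_true]
    refine PLY_eval (fun i t => cut A (x + t • (y - x)) i) ?_ (pderiv j f)
    intro i
    by_cases hi : i ∈ A
    · simp only [cut, hi, if_true]
      exact PLY_line x y i
    · simp only [cut, hi, if_false]
      exact PolyFun.const 0
  · simp only [h, if_false]
    exact PolyFun.const 0

theorem PLY : PLY_stmt := by
  intro ι κ _ _ _ _
  refine ⟨PLY_eval, ?_, ?_⟩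
  · intro c A B d τ x y v j
    cases τ
    · exact PLY_gradcut A x y (v : MvPolynomial ι ℂ) j
    · exact PLY_grad B x y (v : MvPolynomial ι ℂ) j
  · intro c A d τ x y v j
    cases τ
    · exact PLY_gradcut A x y (v : MvPolynomial ι ℂ) j
    · exact PolyFun.const 0

end Pool.Agent.SV
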